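import Pool.Agent.U981.MH.Val
import Pool.Agent.NH29.GH.Hi

/-!
# Elimination: the families of hypersurfaces which are not met by few points form an open set
-/

set_option autoImplicit false
set_option linter.unusedSectionVars false

namespace Pool.Agent.U981.MH

open MvPolynomial Module
open Pool.Agent.NH29.GN (Idx Mon fv val)
open Pool.Agent.NH29.GN.IntP
open Pool.Agent.NH29.GH (fv_self)

section

variable {κ : Type} [Field κ] [CharZero κ] {M q : ℕ} (V : Set (MvPolynomial (Fin (M + 1)) κ))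
  {d : Fin q → ℕ}

/-- a nonzero point of `V` on the hypersurfaces in `C` -/
def Meets (K : Type) [Field K] [Algebra κ K] (t : Idx M d → K) (C : Finset (Fin q))
    (y : Fin (M + 1) → K) : Prop :=
  (∀ H ∈ V, eval₂ (algebraMap κ K) y H = 0) ∧ ∀ b ∈ C, fv t y b = 0

/-- polynomials with coefficients depending on the forms which vanish at the common zeros -/
def Van (C : Finset (Fin q)) (R : MvPolynomial (Fin (M + 1)) (MvPolynomial (Idx M d) κ)) : Prop :=
  ∀ (K : Type) [Field K] [Algebra κ K] (t : Idx M d → K) (y : Fin (M + 1) → K),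
    Meets V K t C y → eval₂ (aeval t : MvPolynomial (Idx M d) κ →ₐ[κ] K).toRingHom y R = 0

variable {V}

theorem Meets.smul (hV : ∀ H ∈ V, ∃ e, H.IsHomogeneous e) {K : Type} [Field K] [Algebra κ K]
    {t : Idx M d → K} {C : Finset (Fin q)} {y : Fin (M + 1) → K} (h : Meets V K t C y) (c : K) :
    Meets V K t C fun i => c * y i := by
  refine ⟨fun H hH => ?_, fun b hb => ?_⟩
  · obtain ⟨e, he⟩ := hV H hH
    rw [eval_smul _ H he, h.1 H hH, mul_zero]
  · have h1 := fv_smul (K := K) (L := K) (Ω := K) t c y b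
    simp only [Algebra.algebraMap_self, RingHom.id_apply] at h1
    rw [h1, h.2 b hb, mul_zero]

/-- the homogeneous parts vanish -/
theorem Van.part {C : Finset (Fin q)} (hV : ∀ H ∈ V, ∃ e, H.IsHomogeneous e)
    {R : MvPolynomial (Fin (M + 1)) (MvPolynomial (Idx M d) κ)} (hR : Van V C R) (D : ℕ)
    (K : Type) [Field K] [Algebra κ K] (t : Idx M d → K) (y : Fin (M + 1) → K)
    (h : Meets V K t C y) : ∑ β : Mon M D, aeval t (coeff β.1 R) * val y β.1 = 0 := by
  classical
  have : CharZero K := charZero_of_injective_algebraMap (algebraMap κ K).injective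
  let g : MvPolynomial (Idx M d) κ →+* K := (aeval t : MvPolynomial (Idx M d) κ →ₐ[κ] K).toRingHom
  let P : Polynomial K := ∑ β ∈ R.support,
    Polynomial.C (g (coeff β R) * val y β) * Polynomial.X ^ β.degree
  have hP : P = 0 := by
    apply Polynomial.funext
    intro c
    rw [Polynomial.eval_zero]
    have h1 := hR K t _ (h.smul hV c)
    rw [eval₂_eq'] at h1
    change Polynomial.eval c (∑ β ∈ R.support, _) = 0
    rw [Polynomial.eval_finsetSum, ← h1]
    refine Finset.sum_congr rfl fun β _ => ?_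
    rw [Polynomial.eval_mul, Polynomial.eval_C, Polynomial.eval_pow, Polynomial.eval_X]
    have h2 : ∏ i, (c * y i) ^ β i = c ^ β.degree * val y β := by
      unfold val
      rw [Finsupp.degree_eq_sum, ← Finset.prod_pow_eq_pow_sum, ← Finset.prod_mul_distrib]
      exact Finset.prod_congr rfl fun i _ => mul_pow _ _ _
    rw [h2]
    change _ = g (coeff β R) * _
    ring
  have h3 : P.coeff D = ∑ β ∈ R.support, if β.degree = D then g (coeff β R) * val y β else 0 := by
    change (∑ β ∈ R.support, _ : Polynomial K).coeff D = _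
    rw [Polynomial.finsetSum_coeff]
    refine Finset.sum_congr rfl fun β _ => ?_
    rw [Polynomial.coeff_C_mul, Polynomial.coeff_X_pow]
    by_cases h4 : β.degree = D
    · rw [if_pos h4, if_pos h4.symm, mul_one]
    · rw [if_neg h4, if_neg (fun h => h4 h.symm), mul_zero]
  rw [hP, Polynomial.coeff_zero, ← Finset.sum_filter] at h3
  rw [h3]
  have h5 : ∑ β : Mon M D, aeval t (coeff β.1 R) * val y β.1 =
      ∑ β ∈ Finset.univ.image fun β : Mon M D => β.1, g (coeff β R) * val y β := by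
    rw [Finset.sum_image fun β _ γ _ h => Subtype.ext h]
    rfl
  rw [h5]
  symm
  refine Finset.sum_subset ?_ ?_
  · intro β hβ
    rw [Finset.mem_filter] at hβ
    exact Finset.mem_image.2 ⟨⟨β, hβ.2⟩, Finset.mem_univ _, rfl⟩
  · intro β hβ hβ'
    obtain ⟨⟨γ, hγ⟩, -, rfl⟩ := Finset.mem_image.1 hβ
    rw [Finset.mem_filter, not_and] at hβ'
    by_cases h6 : γ ∈ R.support
    · exact absurd hγ (hβ' h6)
    · rw [notMem_support_iff.1 h6, map_zero, zero_mul]

/-- the generic form -/
noncomputable def gen (M : ℕ) {q : ℕ} (κ : Type) [Field κ] (d : Fin q → ℕ) (b : Fin q) :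
    MvPolynomial (Fin (M + 1)) (MvPolynomial (Idx M d) κ) :=
  ∑ β : Mon M (d b), monomial β.1 (X ⟨b, β⟩)

theorem van_gen {C : Finset (Fin q)} {b : Fin q} (hb : b ∈ C) : Van V C (gen M κ d b) := by
  intro K _ _ t y h
  rw [← h.2 b hb]
  unfold gen fv
  rw [eval₂_sum]
  refine Finset.sum_congr rfl fun β _ => ?_
  rw [eval₂_monomial, Finsupp.prod_fintype _ _ (fun _ => pow_zero _)]
  change aeval t (X (⟨b, β⟩ : Idx M d)) * _ = _
  rw [aeval_X]
  rfl

theorem map_gen (t : Idx M d → κ) (b : Fin q) :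
    map (aeval t : MvPolynomial (Idx M d) κ →ₐ[κ] κ).toRingHom (gen M κ d b) = frm t b := by
  unfold gen frm
  rw [map_sum]
  refine Finset.sum_congr rfl fun β _ => ?_
  rw [map_monomial]
  congr 1
  change aeval t (X (⟨b, β⟩ : Idx M d)) = _
  rw [aeval_X]

/-- every element of the ideal is a specialisation -/
theorem exists_van {C : Finset (Fin q)} (t : Idx M d → κ) {G : MvPolynomial (Fin (M + 1)) κ}
    (hG : G ∈ Ideal.span (V ∪ frm t '' C)) :
    ∃ R, Van V C R ∧ map (aeval t : MvPolynomial (Idx M d) κ →ₐ[κ] κ).toRingHom R = G := by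
  refine Submodule.span_induction (p := fun G _ => ∃ R, Van V C R ∧
    map (aeval t : MvPolynomial (Idx M d) κ →ₐ[κ] κ).toRingHom R = G) ?_ ?_ ?_ ?_ hG
  · rintro G (hG | ⟨b, hb, rfl⟩)
    · refine ⟨map MvPolynomial.C G, fun K _ _ t2 y h => ?_, ?_⟩
      · rw [eval₂_map]
        have h1 : ((aeval t2 : MvPolynomial (Idx M d) κ →ₐ[κ] K).toRingHom).comp MvPolynomial.C =
            algebraMap κ K := by
          ext a
          change aeval t2 (MvPolynomial.C a) = _
          rw [aeval_C]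
        rw [h1]
        exact h.1 G hG
      · rw [map_map]
        have h1 : ((aeval t : MvPolynomial (Idx M d) κ →ₐ[κ] κ).toRingHom).comp MvPolynomial.C =
            RingHom.id κ := by
          ext a
          change aeval t (MvPolynomial.C a) = _
          rw [aeval_C]
          rfl
        rw [h1, map_id]
    · exact ⟨gen M κ d b, van_gen hb, map_gen t b⟩
  · exact ⟨0, fun K _ _ t2 y h => eval₂_zero _ _, map_zero _⟩
  · rintro G G' - - ⟨R, h1, h2⟩ ⟨R', h1', h2'⟩
    refine ⟨R + R', fun K _ _ t2 y h => ?_, ?_⟩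
    · rw [eval₂_add, h1 K t2 y h, h1' K t2 y h, add_zero]
    · rw [map_add, h2, h2']
  · rintro A G - ⟨R, h1, h2⟩
    refine ⟨map MvPolynomial.C A * R, fun K _ _ t2 y h => ?_, ?_⟩
    · rw [eval₂_mul, h1 K t2 y h, mul_zero]
    · rw [map_mul, h2, map_map]
      have h1 : ((aeval t : MvPolynomial (Idx M d) κ →ₐ[κ] κ).toRingHom).comp MvPolynomial.C =
          RingHom.id κ := by
        ext a
        change aeval t (MvPolynomial.C a) = _
        rw [aeval_C]
        rfl
      rw [h1, map_id, smul_eq_mul]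

/-- elimination for one set of hypersurfaces -/
theorem elim_one (hV : ∀ H ∈ V, ∃ e, H.IsHomogeneous e) (t : Idx M d → κ) (C : Finset (Fin q))
    (h : ∀ y : Fin (M + 1) → AlgebraicClosure κ,
      Meets V (AlgebraicClosure κ) (fun s => algebraMap κ (AlgebraicClosure κ) (t s)) C y →
        y = 0) :
    ∃ Q : MvPolynomial (Idx M d) κ, aeval t Q ≠ 0 ∧ ∀ (K : Type) [Field K] [Algebra κ K]
      (t2 : Idx M d → K), aeval t2 Q ≠ 0 → ∀ y : Fin (M + 1) → K, Meets V K t2 C y → y = 0 := by
  classical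
  have hrad : ∀ a, X a ∈ (Ideal.span (V ∪ frm t '' C)).radical := by
    intro a
    rw [← vanishingIdeal_zeroLocus_eq_radical (K := AlgebraicClosure κ), mem_vanishingIdeal_iff]
    intro y hy
    rw [zeroLocus_span] at hy
    have hy0 : y = 0 := by
      refine h y ⟨fun H hH => hy H (Or.inl hH), fun b hb => ?_⟩
      rw [fv_self, ← aeval_frm]
      exact hy _ (Or.inr ⟨b, hb, rfl⟩)
    rw [aeval_X, hy0, Pi.zero_apply]
  choose N hN using fun a => (Ideal.mem_radical_iff).1 (hrad a)
  obtain ⟨N₀, hN₀⟩ : ∃ N₀ : ℕ, 1 ≤ N₀ ∧ ∀ a, X a ^ N₀ ∈ Ideal.span (V ∪ frm t '' C) := by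
    refine ⟨∑ a, N a + 1, by omega, fun a => ?_⟩
    have h1 : N a ≤ ∑ a, N a + 1 :=
      (Finset.single_le_sum (f := N) (fun _ _ => Nat.zero_le _) (Finset.mem_univ a)).trans
        (Nat.le_succ _)
    obtain ⟨j, hj⟩ := Nat.exists_eq_add_of_le h1
    rw [hj, pow_add]
    exact Ideal.mul_mem_right _ _ (hN a)
  obtain ⟨D, hD⟩ : ∃ D : ℕ, D = (M + 1) * N₀ := ⟨_, rfl⟩
  have hD0 : D ≠ 0 := by
    rw [hD]
    exact Nat.mul_ne_zero (by omega) (by omega)
  have hmon : ∀ β : Mon M D, monomial β.1 (1 : κ) ∈ Ideal.span (V ∪ frm t '' C) := by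
    intro β
    obtain ⟨a, ha⟩ : ∃ a, N₀ ≤ β.1 a := by
      by_contra hcon
      push Not at hcon
      have h1 : ∑ a, β.1 a < ∑ _a : Fin (M + 1), N₀ :=
        Finset.sum_lt_sum_of_nonempty Finset.univ_nonempty fun a _ => hcon a
      rw [Finset.sum_const, Finset.card_univ, Fintype.card_fin, smul_eq_mul, ← hD,
        ← Finsupp.degree_eq_sum, β.2] at h1
      exact lt_irrefl _ h1
    have h1 : monomial β.1 (1 : κ) = monomial (β.1 - Finsupp.single a N₀) 1 * X a ^ N₀ := by
      rw [X_pow_eq_monomial, monomial_mul, one_mul,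
        tsub_add_cancel_of_le (Finsupp.single_le_iff.2 ha)]
    rw [h1]
    exact Ideal.mul_mem_left _ _ (hN₀.2 a)
  choose R hR hRt using fun β : Mon M D => exists_van t (hmon β)
  let A : Matrix (Mon M D) (Mon M D) (MvPolynomial (Idx M d) κ) := fun β γ => coeff γ.1 (R β)
  refine ⟨A.det, ?_, fun K _ _ t2 hQ y hy => ?_⟩
  · have h1 : (aeval t : MvPolynomial (Idx M d) κ →ₐ[κ] κ) A.det = 1 := by
      rw [AlgHom.map_det]
      have h2 : (aeval t : MvPolynomial (Idx M d) κ →ₐ[κ] κ).mapMatrix A = 1 := by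
        ext β γ
        rw [AlgHom.mapMatrix_apply, Matrix.map_apply]
        have h3 := congrArg (coeff γ.1) (hRt β)
        rw [coeff_map, coeff_monomial] at h3
        change aeval t (coeff γ.1 (R β)) = _
        rw [Matrix.one_apply]
        refine Eq.trans h3 ?_
        by_cases h4 : β = γ
        · rw [if_pos h4, if_pos (by rw [h4])]
        · rw [if_neg h4, if_neg (fun h => h4 (Subtype.ext h))]
      rw [h2, Matrix.det_one]
    rw [h1]
    exact one_ne_zero
  · have h1 : ((aeval t2 : MvPolynomial (Idx M d) κ →ₐ[κ] K).mapMatrix A).det ≠ 0 := by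
      rw [← AlgHom.map_det]
      exact hQ
    have h2 : ((aeval t2 : MvPolynomial (Idx M d) κ →ₐ[κ] K).mapMatrix A).mulVec
        (fun γ => val y γ.1) = 0 := by
      funext β
      rw [Pi.zero_apply]
      exact (hR β).part hV D K t2 y hy
    have h3 := Matrix.eq_zero_of_mulVec_eq_zero h1 h2
    funext a
    have h4 := congrFun h3 (⟨Finsupp.single a D, by rw [Finsupp.degree_single]⟩ : Mon M D)
    change val y (Finsupp.single a D) = 0 at h4
    have h5 : val y (Finsupp.single a D) = y a ^ D := by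
      unfold val
      rw [Finset.prod_eq_single a]
      · rw [Finsupp.single_eq_same]
      · intro i _ hi
        rw [Finsupp.single_eq_of_ne hi, pow_zero]
      · intro hcon
        exact absurd (Finset.mem_univ a) hcon
    rw [h5] at h4
    exact pow_eq_zero_iff hD0 |>.1 h4

/-- the polynomials whose nonvanishing guarantees the condition -/
def Good (V : Set (MvPolynomial (Fin (M + 1)) κ)) (d : Fin q → ℕ) (n : ℕ) :
    Set (MvPolynomial (Idx M d) κ) :=
  {Q | ∀ (K : Type) [Field K] [Algebra κ K] (t : Idx M d → K), aeval t Q ≠ 0 → Few κ K V t n}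

/-- the condition is open -/
theorem exists_good (hV : ∀ H ∈ V, ∃ e, H.IsHomogeneous e) (t : Idx M d → κ) (n : ℕ)
    (h : Few κ (AlgebraicClosure κ) V (fun s => algebraMap κ (AlgebraicClosure κ) (t s)) n) :
    ∃ Q ∈ Good V d n, aeval t Q ≠ 0 := by
  classical
  obtain ⟨S, hS⟩ : ∃ S : Finset (Finset (Fin q)), ∀ C, C ∈ S ↔
      ∀ y : Fin (M + 1) → AlgebraicClosure κ,
        Meets V (AlgebraicClosure κ) (fun s => algebraMap κ (AlgebraicClosure κ) (t s)) C y →
          y = 0 :=
    ⟨Finset.univ.filter fun C => ∀ y : Fin (M + 1) → AlgebraicClosure κ,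
        Meets V (AlgebraicClosure κ) (fun s => algebraMap κ (AlgebraicClosure κ) (t s)) C y →
          y = 0, fun C => by rw [Finset.mem_filter]; exact ⟨fun h => h.2, fun h => ⟨Finset.mem_univ _, h⟩⟩⟩
  have h1 : ∀ C : Finset (Fin q), ∃ Q : MvPolynomial (Idx M d) κ, aeval t Q ≠ 0 ∧
      (C ∈ S → ∀ (K : Type) [Field K] [Algebra κ K] (t2 : Idx M d → K), aeval t2 Q ≠ 0 →
        ∀ y : Fin (M + 1) → K, Meets V K t2 C y → y = 0) := by
    intro C
    by_cases hC : C ∈ S
    · obtain ⟨Q, hQ1, hQ2⟩ := elim_one hV t C ((hS C).1 hC)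
      exact ⟨Q, hQ1, fun _ => hQ2⟩
    · exact ⟨1, by rw [map_one]; exact one_ne_zero, fun h => absurd h hC⟩
  choose Q hQ1 hQ2 using h1
  refine ⟨∏ C, Q C, fun K _ _ t2 ht2 y hy0 hyV => ?_, ?_⟩
  · rw [map_prod, Finset.prod_ne_zero_iff] at ht2
    by_contra hcon
    push Not at hcon
    let Cj : Fin n → Finset (Fin q) := fun j => Finset.univ.filter fun b => fv t2 (y j) b = 0
    have h2 : ∀ j, ∃ z : Fin (M + 1) → AlgebraicClosure κ, z ≠ 0 ∧
        Meets V (AlgebraicClosure κ) (fun s => algebraMap κ (AlgebraicClosure κ) (t s))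
          (Cj j) z := by
      intro j
      by_contra hcon2
      push Not at hcon2
      have h3 : Cj j ∈ S := by
        rw [hS]
        intro z hz
        by_contra hz0
        exact hcon2 z hz0 hz
      refine hy0 j (hQ2 (Cj j) h3 K t2 (ht2 (Cj j) (Finset.mem_univ _)) (y j)
        ⟨hyV j, fun b hb => ?_⟩)
      exact (Finset.mem_filter.1 hb).2
    choose z hz0 hz using h2
    obtain ⟨b, hb⟩ := h z hz0 fun j => (hz j).1
    obtain ⟨j, hj⟩ := hcon b
    exact hb j ((hz j).2 b (Finset.mem_filter.2 ⟨Finset.mem_univ _, hj⟩))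
  · rw [map_prod]
    exact Finset.prod_ne_zero_iff.2 fun C _ => hQ1 C

/-- finitely many polynomials suffice -/
theorem exists_fin (𝒬 : Set (MvPolynomial (Idx M d) κ)) :
    ∃ G : Finset (MvPolynomial (Idx M d) κ), (∀ Q ∈ G, Q ∈ 𝒬) ∧ ∀ t : Idx M d → κ,
      (∃ Q ∈ 𝒬, aeval t Q ≠ 0) → ∃ Q ∈ G, aeval t Q ≠ 0 := by
  classical
  have h1 : (Ideal.span 𝒬).FG := (isNoetherianRing_iff_ideal_fg _).1 inferInstance _
  obtain ⟨G, hG, hG2⟩ := (Submodule.fg_span_iff_fg_span_finset_subset 𝒬).1 h1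
  refine ⟨G, fun Q hQ => hG hQ, fun t ht => ?_⟩
  obtain ⟨Q, hQ, hQt⟩ := ht
  by_contra hcon
  push Not at hcon
  apply hQt
  have h2 : Q ∈ Ideal.span (G : Set (MvPolynomial (Idx M d) κ)) := by
    have h3 : Q ∈ Ideal.span 𝒬 := Ideal.subset_span hQ
    change Q ∈ Submodule.span _ _ at h3
    rw [hG2] at h3
    exact h3
  have h3 : Ideal.span (G : Set (MvPolynomial (Idx M d) κ)) ≤
      RingHom.ker (aeval t : MvPolynomial (Idx M d) κ →ₐ[κ] κ) :=
    Ideal.span_le.2 fun Q hQ => hcon Q hQ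
  exact h3 h2

end

end Pool.Agent.U981.MH
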