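import Pool.Agent.U981.MH.Elim
import Pool.Agent.NH29.GH.Fin
import Pool.Agent.NH29.GH.Nrm

/-!
# The height inequality for points of bounded degree and hypersurfaces which are not met by
# `2 r` points

The first theorem is the part of the proof of `Pool.Agent.NH29.GH.gh_one` before the
specialisation argument.
-/

set_option autoImplicit false

namespace Pool.Agent.U981.MH

open MvPolynomial Module Filter Height NumberField
open Pool.Agent.NH29.GN (Idx Mon fv val UPr HFam Sm SmN MueStm NoZero sml ld mue mov movs movd gal hn)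
open Pool.Agent.NH29.GN.Hi (sm_mul sm_inv sm_cst sm_zpow sm_prod)
open Pool.Agent.NH29.GH
open Pool.Agent.NH8.GD (pv qn Bad)

/-- a sequence of counterexamples gives a bad tuple -/
theorem bad_of_fail {k κ : Type} [Field k] [CharZero k] [Field κ] [NumberField κ] [Algebra k κ]
    {M q m : ℕ} (hm : 1 ≤ m) (V : Set (MvPolynomial (Fin (M + 1)) k)) (d : Fin q → ℕ)
    (P : Finset ℕ) (hP : ∀ p ∈ P, p ≠ 0) (Q : MvPolynomial (Idx M d) k)
    (hA : ∀ A : ℝ, ∃ t : Idx M d → κ, aeval t Q ≠ 0 ∧ ∃ (E : Type) (_ : Field E)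
      (_ : NumberField E) (_ : Algebra κ E), finrank κ E = m ∧ ∃ x : Fin (M + 1) → E,
      PtD V t x ∧ A * rhsD P t x < nH x) :
    ∃ (K' L' : Type) (_ : Field K') (_ : Field L') (_ : Algebra k K') (_ : Algebra K' L')
      (_ : IsAlgClosed K') (t' : Idx M d → K') (x' : Fin m → Fin (M + 1) → L'),
      aeval t' Q ≠ 0 ∧ Bad k K' L' V t' x' := by
  classical
  have hD : ∀ s : ℕ, Nonempty (Dat κ V d P m Q s) := by
    intro s
    obtain ⟨t, ht, E, fE, nE, aE, hfin, x, hx, hlt⟩ := hA s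
    obtain ⟨L, fL, nL, aL, hfL, e, he⟩ := emb κ E
    rw [hfin] at hfL
    have e' : ∃ e' : Fin m → (E →ₐ[κ] L), ∀ a : E,
        algebraMap κ L (Algebra.norm κ a) = ∏ l, e' l a := by
      refine ⟨fun l => e (Fin.cast hfin.symm l), fun a => ?_⟩
      rw [(he a).1]
      exact (Equiv.prod_comp (finCongr hfin.symm) fun l => e l a).symm
    obtain ⟨e', he'⟩ := e'
    exact ⟨⟨t, ht, E, hfin, x, hx, hlt, L, hfL, e', he'⟩⟩
  obtain ⟨D⟩ : Nonempty (∀ s, Dat κ V d P m Q s) := ⟨fun s => (hD s).some⟩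
  obtain ⟨Γ, A₀, hΓ, hA₀, hnear⟩ := near sup cnp nrm ext (κ := κ) P hP d m
  obtain ⟨c, hc0, hc⟩ := hnu
  obtain ⟨𝒰, h𝒰⟩ : ∃ 𝒰 : Ultrafilter ℕ, 𝒰 = hyperfilter ℕ := ⟨_, rfl⟩
  have hcof : ∀ R : ℝ, ∀ᶠ s : ℕ in (𝒰 : Filter ℕ), R ≤ s := by
    intro R
    have h1 : ∀ᶠ s : ℕ in (cofinite : Filter ℕ), R ≤ s := by
      rw [Nat.cofinite_eq_atTop]
      filter_upwards [eventually_ge_atTop ⌈R⌉₊] with n hn
      exact (Nat.le_ceil R).trans (by exact_mod_cast hn)
    rw [h𝒰]
    exact hyperfilter_le_cofinite h1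
  have hR : ∀ s, 1 ≤ rhsD P (D s).t (D s).x := fun s =>
    (hnear (D s).E (D s).fin (D s).t (D s).x (D s).pt.off).1
  have hHs : ∀ s : ℕ, (s : ℝ) ≤ nH (D s).x := by
    intro s
    have h1 : (s : ℝ) * 1 ≤ s * rhsD P (D s).t (D s).x :=
      mul_le_mul_of_nonneg_left (hR s) (Nat.cast_nonneg s)
    linarith [(D s).lt]
  have hHt : ∀ B : ℝ, ∀ᶠ s in (𝒰 : Filter ℕ), B ≤ nH (D s).x := fun B =>
    (hcof B).mono fun s hs => hs.trans (hHs s)
  let T : HFam 𝒰 (fun s : ℕ => (D s).L) :=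
    { h := fun _ a => nh a
      H := fun s => nH (D s).x
      c := c
      nonneg := fun _ a => nh_nonneg a
      zero := fun _ => by
        unfold nh
        rw [logHeight₁_zero, zero_div]
        exact hc0 0
      one := fun _ => by
        unfold nh
        rw [logHeight₁_one, zero_div]
        exact hc0 0
      neg := fun s a => (hc (D s).L).1 a
      inv := fun s a => (hc (D s).L).2.1 a
      add := fun s a b => (hc (D s).L).2.2.1 a b
      mul := fun s a b => (hc (D s).L).2.2.2.1 a b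
      root := fun n s g a h => (hc (D s).L).2.2.2.2.1 n g a h
      small := fun n N => hHt _ }
  have hsmall : ∀ (B : ℝ) (f : ∀ s, (D s).L), 0 ≤ B →
      (∀ s, nh (f s) ≤ B * rhsD P (D s).t (D s).x) → Sm T f := by
    intro B f hB hf N
    refine (hcof (N * B)).mono fun s hs => ?_
    change (N : ℝ) * nh (f s) ≤ nH (D s).x
    calc (N : ℝ) * nh (f s) ≤ N * (B * rhsD P (D s).t (D s).x) :=
          mul_le_mul_of_nonneg_left (hf s) (Nat.cast_nonneg N)
      _ = N * B * rhsD P (D s).t (D s).x := by ring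
      _ ≤ s * rhsD P (D s).t (D s).x :=
          mul_le_mul_of_nonneg_right hs (le_trans zero_le_one (hR s))
      _ ≤ nH (D s).x := (D s).lt.le
  have hmap : ∀ s (a : κ), nh (algebraMap κ (D s).L a) = nh a := fun s a =>
    (ext κ (D s).L (algebraMap κ (D s).L)).1 a
  have hSmN : ∀ f : ℕ → κ, SmN 𝒰 (fun s => nH (D s).x) f ↔
      Sm T fun s => algebraMap κ (D s).L (f s) := by
    intro f
    constructor
    · intro h N
      filter_upwards [h N] with s hs
      change (N : ℝ) * nh (algebraMap κ (D s).L (f s)) ≤ nH (D s).x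
      rw [hmap]
      refine le_trans ?_ hs
      rw [log_eq]
      have h1 : (1 : ℝ) ≤ finrank ℚ κ := by
        exact_mod_cast (finrank_pos : 0 < finrank ℚ κ)
      have h2 := nh_nonneg (f s)
      refine mul_le_mul_of_nonneg_left ?_ (Nat.cast_nonneg N)
      nlinarith
    · intro h N
      filter_upwards [h (N * finrank ℚ κ)] with s hs
      have hs' : ((N * finrank ℚ κ : ℕ) : ℝ) * nh (algebraMap κ (D s).L (f s)) ≤
        nH (D s).x := hs
      rw [hmap] at hs'
      rw [log_eq, ← mul_assoc]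
      push_cast at hs'
      exact hs'
  have htS : ∀ i, Sm T fun s => (D s).tL i := by
    intro i
    refine hsmall 1 _ zero_le_one fun s => ?_
    change nh (algebraMap κ (D s).L ((D s).t i)) ≤ _
    rw [hmap, one_mul]
    exact (hnear (D s).E (D s).fin (D s).t (D s).x (D s).pt.off).2.1 i
  obtain ⟨K', L', i1, i2, i3, i4, i5, t', x', h1, h2⟩ := absd sml ld k ℕ 𝒰 (fun s => (D s).L) T M q m
    V d (fun s => (D s).tL) (fun s => (D s).xL) Q
    (fun a N => by
      refine (hHt (N * nh (algebraMap k κ a))).mono fun s hs => ?_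
      change (N : ℝ) * nh (algebraMap κ (D s).L (algebraMap k κ a)) ≤ nH (D s).x
      rw [hmap]
      exact hs)
    htS (fun s => (D s).aeval_tL) (fun s l H hH => (D s).aeval_xL l H hH)
    (fun s l b => by
      rw [(D s).fv_xL, Ne, map_eq_zero]
      exact (D s).pt.off b)
    (fun s l => (D s).xL_ne l)
    (by
      refine ⟨⟨0, hm⟩, fun a₀ ha₀ => ?_⟩
      by_contra hall
      push Not at hall
      have h1 : ∀ᶠ s in (𝒰 : Filter ℕ), ∀ a, ((2 * (M + 1) : ℕ) : ℝ) *
          nh ((D s).xL ⟨0, hm⟩ a / (D s).xL ⟨0, hm⟩ a₀) ≤ nH (D s).x :=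
        eventually_all.2 fun a => hall a (2 * (M + 1))
      obtain ⟨s, ⟨hs1, hs2⟩, hs3⟩ := ((h1.and ha₀).and (hHt 1)).exists
      have h2 : nH ((D s).xL ⟨0, hm⟩) ≤
          ∑ a, nh ((D s).xL ⟨0, hm⟩ a / (D s).xL ⟨0, hm⟩ a₀) :=
        (hc (D s).L).2.2.2.2.2 M ((D s).xL ⟨0, hm⟩) a₀ hs2
      have h2' : nH ((D s).xL ⟨0, hm⟩) = nH (D s).x :=
        (ext (D s).E (D s).L ((D s).e ⟨0, hm⟩).toRingHom).2 M (D s).x
      rw [h2'] at h2
      have h3 : ((2 * (M + 1) : ℕ) : ℝ) *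
          ∑ a, nh ((D s).xL ⟨0, hm⟩ a / (D s).xL ⟨0, hm⟩ a₀) ≤ (M + 1) * nH (D s).x := by
        rw [Finset.mul_sum]
        refine (Finset.sum_le_sum fun a _ => hs1 a).trans (le_of_eq ?_)
        rw [Finset.sum_const, Finset.card_univ, Fintype.card_fin, nsmul_eq_mul]
        push_cast
        ring
      have h5 : (0 : ℝ) < (M : ℝ) + 1 := by positivity
      have h6 := mul_le_mul_of_nonneg_left h2 (by positivity : (0 : ℝ) ≤ ((2 * (M + 1) : ℕ) : ℝ))
      push_cast at h3 h6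
      nlinarith [mul_pos h5 (by linarith : 0 < nH (D s).x)])
    (by
      intro b₀ S' hS' c' hcS hc0' hrel
      obtain ⟨m₀, hm₀⟩ := hS'
      choose γ hγ hγe using fun s b =>
        (hnear (D s).E (D s).fin (D s).t (D s).x (D s).pt.off).2.2 b₀ b
      -- the coefficients in `κ`
      obtain ⟨a, ha⟩ : ∃ a : (Fin q → ℤ) → ℕ → κ, ∀ m' s, a m' s =
          ((finrank κ (D s).L : ℕ) : κ)⁻¹ *
            Algebra.trace κ (D s).L (c' m' s / c' m₀ s) := ⟨_, fun _ _ => rfl⟩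
      obtain ⟨Ct, hCt, htr⟩ := trc hnu ext emb (m ^ m)
      have haS : ∀ m' ∈ S', SmN 𝒰 (fun s => nH (D s).x) (a m') := by
        intro m' hm'
        rw [hSmN]
        have h3 : Sm T fun s => c' m' s * (c' m₀ s)⁻¹ :=
          sm_mul (hcS m' hm') (sm_inv (hcS m₀ hm₀))
        intro N
        filter_upwards [h3 ⌈2 * (N : ℝ) * Ct⌉₊, hHt (2 * N * Ct)] with s hs1 hs2
        change (N : ℝ) * nh (algebraMap κ (D s).L (a m' s)) ≤ nH (D s).x
        rw [hmap, ha]
        have h4 := htr κ (D s).L (D s).finL (c' m' s / c' m₀ s)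
        have hs1' : ((⌈2 * (N : ℝ) * Ct⌉₊ : ℕ) : ℝ) * nh (c' m' s / c' m₀ s) ≤ nH (D s).x := by
          rw [div_eq_mul_inv]
          exact hs1
        have h5 : 2 * (N : ℝ) * Ct * nh (c' m' s / c' m₀ s) ≤ nH (D s).x :=
          (mul_le_mul_of_nonneg_right (Nat.le_ceil _) (nh_nonneg _)).trans hs1'
        have h6 := mul_le_mul_of_nonneg_left h4 (Nat.cast_nonneg N : (0 : ℝ) ≤ N)
        nlinarith
      have ha1 : ∀ᶠ s in (𝒰 : Filter ℕ), a m₀ s = 1 := by
        filter_upwards [hc0' m₀ hm₀] with s hs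
        rw [ha, div_self hs]
        have h3 : Algebra.trace κ (D s).L 1 = ((finrank κ (D s).L : ℕ) : κ) := by
          have h4 := Algebra.trace_algebraMap (R := κ) (S := (D s).L) (1 : κ)
          rw [map_one] at h4
          rw [h4, nsmul_eq_mul, mul_one]
        rw [h3, inv_mul_cancel₀]
        have h5 : finrank κ (D s).L ≠ 0 := (finrank_pos (R := κ) (M := (D s).L)).ne'
        exact_mod_cast h5
      have hra : ∀ᶠ s in (𝒰 : Filter ℕ), ∑ m' ∈ S', a m' s * ∏ b, (D s).w b₀ b ^ m' b = 0 := by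
        filter_upwards [hrel, hc0' m₀ hm₀] with s hs hs0
        have h3 : ∑ m' ∈ S', (c' m' s / c' m₀ s) *
            algebraMap κ (D s).L (∏ b, (D s).w b₀ b ^ m' b) = 0 := by
          have h4 : ∑ m' ∈ S', (c' m' s / c' m₀ s) *
              algebraMap κ (D s).L (∏ b, (D s).w b₀ b ^ m' b) =
              (c' m₀ s)⁻¹ * ∑ m' ∈ S', c' m' s * ∏ b, qn (D s).tL (D s).xL b₀ b ^ m' b := by
            rw [Finset.mul_sum]
            refine Finset.sum_congr rfl fun m' _ => ?_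
            rw [map_prod]
            simp only [map_zpow₀, (D s).qn_eq]
            ring
          rw [h4, hs, mul_zero]
        have h5 := congrArg (Algebra.trace κ (D s).L) h3
        rw [map_zero, map_sum] at h5
        have h6 : ∀ m' ∈ S', Algebra.trace κ (D s).L ((c' m' s / c' m₀ s) *
            algebraMap κ (D s).L (∏ b, (D s).w b₀ b ^ m' b)) =
            Algebra.trace κ (D s).L (c' m' s / c' m₀ s) * ∏ b, (D s).w b₀ b ^ m' b := by
          intro m' _
          rw [mul_comm, ← Algebra.smul_def, map_smul, smul_eq_mul, mul_comm]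
        rw [Finset.sum_congr rfl h6] at h5
        have h7 : ∑ m' ∈ S', a m' s * ∏ b, (D s).w b₀ b ^ m' b =
            ((finrank κ (D s).L : ℕ) : κ)⁻¹ * ∑ m' ∈ S',
              Algebra.trace κ (D s).L (c' m' s / c' m₀ s) * ∏ b, (D s).w b₀ b ^ m' b := by
          rw [Finset.mul_sum]
          refine Finset.sum_congr rfl fun m' _ => ?_
          rw [ha, mul_assoc]
        rw [h7, h5, mul_zero]
      -- the nonzero coefficients
      obtain ⟨J, hJ⟩ : ∃ J : Finset (Fin q → ℤ), J = S'.filter fun m' =>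
        ∀ᶠ s in (𝒰 : Filter ℕ), a m' s ≠ 0 := ⟨_, rfl⟩
      have hJS : ∀ m' ∈ J, m' ∈ S' := fun m' h => by
        rw [hJ] at h
        exact (Finset.mem_filter.1 h).1
      have hJ0 : ∀ m' ∈ J, ∀ᶠ s in (𝒰 : Filter ℕ), a m' s ≠ 0 := fun m' h => by
        rw [hJ] at h
        exact (Finset.mem_filter.1 h).2
      have hm₀J : m₀ ∈ J := by
        rw [hJ, Finset.mem_filter]
        exact ⟨hm₀, ha1.mono fun s hs => by rw [hs]; exact one_ne_zero⟩
      have hraJ : ∀ᶠ s in (𝒰 : Filter ℕ), ∑ m' ∈ J, a m' s * ∏ b, (D s).w b₀ b ^ m' b = 0 := by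
        have h3 : ∀ᶠ s in (𝒰 : Filter ℕ), ∀ m' ∈ S' \ J, a m' s = 0 := by
          rw [Filter.eventually_all_finset]
          intro m' hm'
          rw [Finset.mem_sdiff, hJ, Finset.mem_filter] at hm'
          have h4 : ¬ ∀ᶠ s in (𝒰 : Filter ℕ), ¬ a m' s = 0 := fun h => hm'.2 ⟨hm'.1, h⟩
          rw [Ultrafilter.eventually_not, not_not] at h4
          exact h4
        filter_upwards [hra, h3] with s hs1 hs2
        rw [← Finset.sum_subset (fun m' h => hJS m' h) fun m' h1 h2 => by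
          rw [hs2 m' (Finset.mem_sdiff.2 ⟨h1, h2⟩), zero_mul]] at hs1
        exact hs1
      have hneJ : Nonempty {m' // m' ∈ J} := ⟨⟨m₀, hm₀J⟩⟩
      have hcs : ∀ b, Sm T fun s =>
          algebraMap κ (D s).L ((D s).w b₀ b / ((γ s b : κˣ) : κ)) := fun b =>
        hsmall A₀ _ hA₀ fun s => by
          rw [hmap]
          exact hγe s b
      have hcm : ∀ m' : Fin q → ℤ, Sm T fun s =>
          algebraMap κ (D s).L (∏ b, ((D s).w b₀ b / ((γ s b : κˣ) : κ)) ^ m' b) := by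
        intro m'
        have h3 : Sm T fun s =>
            ∏ b, algebraMap κ (D s).L ((D s).w b₀ b / ((γ s b : κˣ) : κ)) ^ m' b :=
          sm_prod Finset.univ fun b _ => sm_zpow (hcs b) (m' b)
        refine Pool.Agent.NH29.GN.Sml68.sm_congr T (Eventually.of_forall fun s => ?_) h3
        rw [map_prod]
        simp only [map_zpow₀]
      have hprod : ∀ (m' : Fin q → ℤ) (s : ℕ), ∏ b, (D s).w b₀ b ^ m' b =
          (∏ b, ((D s).w b₀ b / ((γ s b : κˣ) : κ)) ^ m' b) *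
            ((∏ b, γ s b ^ m' b : κˣ) : κ) := by
        intro m' s
        push_cast
        rw [← Finset.prod_mul_distrib]
        refine Finset.prod_congr rfl fun b _ => ?_
        rw [← mul_zpow, div_mul_cancel₀ _ (Units.ne_zero _)]
      obtain ⟨i, j, hij, hsm⟩ := mue (mov (movs gal) movd) hn κ Γ hΓ 𝒰
        (fun s => nH (D s).x) hHt {m' // m' ∈ J} (fun m' s => ∏ b, γ s b ^ m'.1 b)
        (fun m' s => a m'.1 s * ∏ b, ((D s).w b₀ b / ((γ s b : κˣ) : κ)) ^ m'.1 b)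
        (fun m' s => Γ.prod_mem fun b _ => Γ.zpow_mem (hγ s b) _)
        (fun m' => by
          filter_upwards [hJ0 m'.1 m'.2] with s hs
          refine mul_ne_zero hs (Finset.prod_ne_zero_iff.2 fun b _ => zpow_ne_zero _ ?_)
          exact div_ne_zero ((D s).w_ne b₀ b) (Units.ne_zero _))
        (fun m' => by
          rw [hSmN]
          have h3 := sm_mul ((hSmN _).1 (haS m'.1 (hJS m'.1 m'.2))) (hcm m'.1)
          refine Pool.Agent.NH29.GN.Sml68.sm_congr T (Eventually.of_forall fun s => ?_) h3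
          rw [map_mul]) (by
          filter_upwards [hraJ] with s hs
          rw [← hs, ← Finset.sum_coe_sort J]
          refine Finset.sum_congr rfl fun m' _ => ?_
          rw [mul_assoc, hprod])
      refine ⟨i.1, hJS i.1 i.2, j.1, hJS j.1 j.2, fun h => hij (Subtype.ext h), ?_⟩
      have h3 := (hSmN _).1 hsm
      have h4 := sm_mul (sm_mul (hcm i.1) (sm_inv (hcm j.1))) h3
      refine Pool.Agent.NH29.GN.Sml68.sm_congr T (Eventually.of_forall fun s => ?_) h4
      have h5 : ∀ m' : Fin q → ℤ, ∏ b, qn (D s).tL (D s).xL b₀ b ^ m' b =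
          algebraMap κ (D s).L (∏ b, (D s).w b₀ b ^ m' b) := by
        intro m'
        rw [map_prod]
        simp only [map_zpow₀, (D s).qn_eq]
      rw [h5, h5, hprod, hprod]
      simp only [map_mul, map_div₀]
      rw [div_eq_mul_inv (_ * _) (_ * _), mul_inv, div_eq_mul_inv]
      ring)
  exact ⟨K', L', i1, i2, i3, i4, i5, t', x', h1, h2⟩

theorem Few.mono {k K : Type} [Field k] [Field K] [Algebra k K] {M q : ℕ}
    {V : Set (MvPolynomial (Fin (M + 1)) k)} {d : Fin q → ℕ} {t : Idx M d → K} {n n' : ℕ}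
    (hn' : 1 ≤ n') (h : n' ≤ n) (hF : Few k K V t n) : Few k K V t n' := by
  intro y hy0 hyV
  obtain ⟨b, hb⟩ := hF (fun j => if hj : j.1 < n' then y ⟨j.1, hj⟩ else y ⟨0, hn'⟩)
    (fun j => by
      split_ifs
      · exact hy0 _
      · exact hy0 _)
    (fun j => by
      split_ifs
      · exact hyV _
      · exact hyV _)
  refine ⟨b, fun j => ?_⟩
  have h1 := hb ⟨j.1, j.2.trans_le h⟩
  simpa using h1

theorem one_le_rhsD {κ E : Type} [Field κ] [NumberField κ] [Field E] [NumberField E] [Algebra κ E]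
    (P : Finset ℕ) (hP : ∀ p ∈ P, p ≠ 0) {M q : ℕ} {d : Fin q → ℕ} (t : Idx M d → κ)
    (x : Fin (M + 1) → E) (hx : ∀ b, fv t x b ≠ 0) : 1 ≤ rhsD P t x := by
  obtain ⟨Γ, A, -, -, h⟩ := near sup cnp nrm ext (κ := κ) P hP d (M := M) (finrank κ E)
  exact (h E rfl t x hx).1

/-- points of degree `m` -/
theorem mh_one {κ : Type} [Field κ] [NumberField κ] {M q m n : ℕ} (hm : 1 ≤ m) (hmn : 2 * m ≤ n)
    {V : Set (MvPolynomial (Fin (M + 1)) κ)} (hV : ∀ H ∈ V, ∃ e, H.IsHomogeneous e)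
    {d : Fin q → ℕ} (hd : ∀ b, 1 ≤ d b) (P : Finset ℕ) (hP : ∀ p ∈ P, p ≠ 0) :
    ∃ A : ℝ, 0 ≤ A ∧ ∀ t : Idx M d → κ,
      Few κ (AlgebraicClosure κ) V (fun s => algebraMap κ (AlgebraicClosure κ) (t s)) n →
      ∀ (E : Type) [Field E] [NumberField E] [Algebra κ E], finrank κ E = m →
      ∀ x : Fin (M + 1) → E, PtD V t x → nH x ≤ A * rhsD P t x := by
  classical
  obtain ⟨G, hG, hG2⟩ := exists_fin (Good V d n)
  have h1 : ∀ Q : MvPolynomial (Idx M d) κ, ∃ A : ℝ, Q ∈ G → ∀ t : Idx M d → κ, aeval t Q ≠ 0 →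
      ∀ (E : Type) [Field E] [NumberField E] [Algebra κ E], finrank κ E = m →
      ∀ x : Fin (M + 1) → E, PtD V t x → nH x ≤ A * rhsD P t x := by
    intro Q
    by_cases hQ : Q ∈ G
    · by_contra hcon
      push Not at hcon
      obtain ⟨K', L', _, _, _, _, _, t', x', ht', hbad⟩ := bad_of_fail hm V d P hP Q
        (fun A => by
          obtain ⟨-, t, ht, E, f1, f2, f3, hfin, x, hx, hlt⟩ := hcon A
          exact ⟨t, ht, E, f1, f2, f3, hfin, x, hx, hlt⟩)
      exact noBad hV hd hm ((hG Q hQ K' t' ht').mono (by omega) hmn) hbad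
    · exact ⟨0, fun h => absurd h hQ⟩
  choose A hA using h1
  refine ⟨∑ Q ∈ G, |A Q|, Finset.sum_nonneg fun Q _ => abs_nonneg _, ?_⟩
  intro t ht E _ _ _ hE x hx
  obtain ⟨Q, hQ, hQt⟩ := hG2 t (exists_good hV t n ht)
  refine (hA Q hQ t hQt E hE x hx).trans ?_
  have h2 := one_le_rhsD P hP t x hx.off
  refine mul_le_mul_of_nonneg_right ?_ (by linarith)
  exact (le_abs_self _).trans
    (Finset.single_le_sum (f := fun Q => |A Q|) (fun Q _ => abs_nonneg _) hQ)

/-- points of degree at most `r` -/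
theorem mh {κ : Type} [Field κ] [NumberField κ] {M q r : ℕ}
    {V : Set (MvPolynomial (Fin (M + 1)) κ)} (hV : ∀ H ∈ V, ∃ e, H.IsHomogeneous e)
    {d : Fin q → ℕ} (hd : ∀ b, 1 ≤ d b) (P : Finset ℕ) (hP : ∀ p ∈ P, p ≠ 0) :
    ∃ A : ℝ, 0 ≤ A ∧ ∀ t : Idx M d → κ,
      Few κ (AlgebraicClosure κ) V (fun s => algebraMap κ (AlgebraicClosure κ) (t s)) (2 * r) →
      ∀ (E : Type) [Field E] [NumberField E] [Algebra κ E], finrank κ E ≤ r →
      ∀ x : Fin (M + 1) → E, PtD V t x →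
      nH x ≤ A * (1 + ∑ b, nH (fun β : Mon M (d b) => t ⟨b, β⟩) +
        ∑ b, cntP P (fun β => algebraMap κ E (t ⟨b, β⟩)) x / (finrank ℚ E : ℝ)) := by
  classical
  have h1 : ∀ m : ℕ, ∃ A : ℝ, 0 ≤ A ∧ (1 ≤ m → m ≤ r → ∀ t : Idx M d → κ,
      Few κ (AlgebraicClosure κ) V (fun s => algebraMap κ (AlgebraicClosure κ) (t s)) (2 * r) →
      ∀ (E : Type) [Field E] [NumberField E] [Algebra κ E], finrank κ E = m →
      ∀ x : Fin (M + 1) → E, PtD V t x → nH x ≤ A * rhsD P t x) := by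
    intro m
    by_cases hm : 1 ≤ m ∧ m ≤ r
    · obtain ⟨A, hA0, hA⟩ := mh_one hm.1 (by omega : 2 * m ≤ 2 * r) hV hd P hP
      exact ⟨A, hA0, fun _ _ => hA⟩
    · exact ⟨0, le_rfl, fun h h' => absurd ⟨h, h'⟩ hm⟩
  choose A hA0 hA using h1
  obtain ⟨N, hNdef⟩ : ∃ N : ℝ, N = ((Fintype.card (Idx M d) : ℕ) : ℝ) := ⟨_, rfl⟩
  have hN0 : 0 ≤ N := by
    rw [hNdef]
    exact Nat.cast_nonneg _
  have hS0 : 0 ≤ ∑ m ∈ Finset.range (r + 1), A m := Finset.sum_nonneg fun m _ => hA0 m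
  refine ⟨(∑ m ∈ Finset.range (r + 1), A m) * (1 + N), by positivity, ?_⟩
  intro t ht E _ _ _ hE x hx
  have hs : ∀ b, ∃ β : Mon M (d b), t ⟨b, β⟩ ≠ 0 := by
    intro b
    by_contra hcon
    push Not at hcon
    apply hx.off b
    unfold fv
    exact Finset.sum_eq_zero fun β _ => by rw [hcon β, map_zero, zero_mul]
  choose s hs using hs
  obtain ⟨e, he⟩ : ∃ e : Fin q → κ, e = fun b => (t ⟨b, s b⟩)⁻¹ := ⟨_, rfl⟩
  have he0 : ∀ b, e b ≠ 0 := fun b => by
    rw [he]
    exact inv_ne_zero (hs b)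
  obtain ⟨t', ht'⟩ : ∃ t' : Idx M d → κ, t' = fun s => e s.1 * t s := ⟨_, rfl⟩
  have hfv : ∀ (F : Type) [Field F] [Algebra κ F] (z : Fin (M + 1) → F) (b : Fin q),
      fv (K := κ) (L := F) t' z b = algebraMap κ F (e b) * fv t z b := by
    intro F _ _ z b
    rw [ht']
    exact fv_scaleE t e z b
  have hx' : PtD V t' x := by
    refine ⟨hx.ne, hx.onV, fun b => ?_⟩
    rw [hfv]
    refine mul_ne_zero ?_ (hx.off b)
    rw [Ne, map_eq_zero]
    exact he0 b
  have hFew : Few κ (AlgebraicClosure κ) V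
      (fun s => algebraMap κ (AlgebraicClosure κ) (t' s)) (2 * r) := by
    intro y hy0 hyV
    obtain ⟨b, hb⟩ := ht y hy0 hyV
    refine ⟨b, fun j => ?_⟩
    rw [fv_self, hfv]
    refine mul_ne_zero ?_ ?_
    · rw [Ne, map_eq_zero]
      exact he0 b
    · have h2 := hb j
      rwa [fv_self] at h2
  have hcnt : ∀ b, cntP P (fun β => algebraMap κ E (t' ⟨b, β⟩)) x =
      cntP P (fun β => algebraMap κ E (t ⟨b, β⟩)) x := by
    intro b
    rw [ht']
    simp only [map_mul]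
    exact cntP_scale P M (d b) (fun β => algebraMap κ E (t ⟨b, β⟩)) x _ (by
      rw [Ne, map_eq_zero]
      exact he0 b)
  have hY : ∀ b, 0 ≤ nH (fun β : Mon M (d b) => t ⟨b, β⟩) := fun b => nH_nonneg _
  have hκ := fin_pos κ
  have hh : ∀ i, nh (t' i) ≤ ∑ b, nH (fun β : Mon M (d b) => t ⟨b, β⟩) := by
    rintro ⟨b, β⟩
    have h4 := Pool.Agent.NH29.GN.SclPf.ht (Mon M (d b)) (fun β => t ⟨b, β⟩) β (s b) 1
    rw [Nat.cast_one, one_mul, logHeight₁_one, add_zero] at h4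
    have h5 := Finset.single_le_sum
      (f := fun b => nH (fun β : Mon M (d b) => t ⟨b, β⟩)) (fun b _ => hY b)
      (Finset.mem_univ b)
    refine le_trans ?_ h5
    change nh (t' ⟨b, β⟩) ≤ nH (fun β : Mon M (d b) => t ⟨b, β⟩)
    unfold nh nH
    rw [ht', he]
    exact div_le_div_of_nonneg_right h4 hκ.le
  have hsum : ∑ i, nh (t' i) ≤ N * ∑ b, nH (fun β : Mon M (d b) => t ⟨b, β⟩) := by
    refine (Finset.sum_le_sum fun i _ => hh i).trans ?_
    rw [Finset.sum_const, Finset.card_univ, nsmul_eq_mul, hNdef]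
  have hm1 : 1 ≤ finrank κ E := finrank_pos
  have h2 := hA (finrank κ E) hm1 hE t' hFew E rfl x hx'
  have h3 := one_le_rhsD P hP t' x hx'.off
  have h4 : A (finrank κ E) ≤ ∑ m ∈ Finset.range (r + 1), A m :=
    Finset.single_le_sum (fun m _ => hA0 m) (Finset.mem_range.2 (by omega))
  have h5 : nH x ≤ (∑ m ∈ Finset.range (r + 1), A m) * rhsD P t' x :=
    h2.trans (mul_le_mul_of_nonneg_right h4 (by linarith))
  refine h5.trans ?_
  rw [mul_assoc]
  refine mul_le_mul_of_nonneg_left ?_ hS0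
  unfold rhsD
  simp only [hcnt]
  have hcn0 : 0 ≤ ∑ b, cntP P (fun β => algebraMap κ E (t ⟨b, β⟩)) x / (finrank ℚ E : ℝ) := by
    refine Finset.sum_nonneg fun b _ => div_nonneg ?_ (Nat.cast_nonneg _)
    refine (cnp E P hP M q d (fun s => algebraMap κ E (t s)) x b b ?_ ?_).1 <;>
    · rw [fv_self]
      exact hx.off b
  have hYs : 0 ≤ ∑ b, nH (fun β : Mon M (d b) => t ⟨b, β⟩) := Finset.sum_nonneg fun b _ => hY b
  nlinarith [mul_nonneg hN0 hcn0, mul_nonneg hN0 hYs]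

end Pool.Agent.U981.MH
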