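import Pool.Agent.NH8.GD.Stm
import Pool.Agent.NH29.GN.Int
import Pool.Agent.NH29.GN.Alg
import Pool.Agent.NH29.GN.Rel
import Pool.Agent.NH29.GN.StcC

/-!
# No bad tuple, if no `2 δ` points of `V` meet all the hypersurfaces
-/

set_option autoImplicit false

namespace Pool.Agent.U981.MH

open MvPolynomial Module Filter
open Pool.Agent.NH29.GN (Idx Mon fv val Ind AlgStm RelStm)
open Pool.Agent.NH29.GN.IntP
open Pool.Agent.NH8.GD (pv qn Bad)

/-- no `n` points of `V` over `K` meet all the hypersurfaces with the coefficients `t` -/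
def Few (k K : Type) [Field k] [Field K] [Algebra k K] {M q : ℕ}
    (V : Set (MvPolynomial (Fin (M + 1)) k)) {d : Fin q → ℕ} (t : Idx M d → K) (n : ℕ) : Prop :=
  ∀ y : Fin n → Fin (M + 1) → K, (∀ j, y j ≠ 0) →
    (∀ j, ∀ H ∈ V, eval₂ (algebraMap k K) (y j) H = 0) → ∃ b, ∀ j, fv t (y j) b ≠ 0

theorem eq_one_of_pow {G : Type} [LinearOrderedCommGroupWithZero G] {g : G} {n : ℕ} (hn : n ≠ 0)
    (h : g ^ n = 1) : g = 1 := by
  rcases lt_trichotomy g 1 with h1 | h1 | h1
  · exact absurd h (pow_lt_one₀ zero_le h1 hn).ne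
  · exact h1
  · exact absurd h (one_lt_pow₀ h1 hn).ne'

/-- a valuation ring which contains `K` and `s` in its maximal ideal -/
theorem exists_val {K L : Type} [Field K] [Field L] [Algebra K L] {s : L}
    (hs : Transcendental K s) :
    ∃ B : ValuationSubring L, (∀ a : K, algebraMap K L a ∈ B) ∧ s ∈ B.nonunits := by
  let A : Subring L := (Algebra.adjoin K {s}).toSubring
  have hsA : s ∈ A := Algebra.subset_adjoin rfl
  let I : Ideal A := Ideal.span {⟨s, hsA⟩}
  have hI : I ≠ ⊤ := by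
    intro htop
    have hu : IsUnit (⟨s, hsA⟩ : A) := Ideal.span_singleton_eq_top.1 htop
    obtain ⟨c, hc⟩ := hu.exists_right_inv
    have hc' : s * (c : L) = 1 := congrArg Subtype.val hc
    have hcA : (c : L) ∈ Algebra.adjoin K {s} := c.2
    rw [Algebra.adjoin_singleton_eq_range_aeval] at hcA
    obtain ⟨p, hp⟩ := hcA
    apply hs
    refine ⟨Polynomial.X * p - 1, ?_, ?_⟩
    · intro h
      have h1 := congrArg (Polynomial.eval 0) h
      simp at h1
    · have hp' : Polynomial.aeval s p = (c : L) := hp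
      rw [map_sub, map_mul, Polynomial.aeval_X, map_one, hp', hc', sub_self]
  obtain ⟨B, hB, hI'⟩ := Ideal.image_subset_nonunits_valuationSubring I hI
  exact ⟨B, fun a => hB (Subalgebra.algebraMap_mem _ a),
    hI' ⟨⟨s, hsA⟩, Ideal.subset_span rfl, rfl⟩⟩

/-- the elements of a subfield of a valuation ring are units -/
theorem val_one {F L : Type} [Field F] [Field L] [Algebra F L] (B : ValuationSubring L)
    (hB : ∀ a : F, algebraMap F L a ∈ B) {a : F} (ha : a ≠ 0) :
    B.valuation (algebraMap F L a) = 1 := by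
  refine le_antisymm ((B.valuation_le_one_iff _).2 (hB a)) ?_
  have h1 := (B.valuation_le_one_iff _).2 (hB a⁻¹)
  rw [map_inv₀, map_inv₀] at h1
  have h2 : B.valuation (algebraMap F L a) ≠ 0 := by
    rw [Ne, map_eq_zero, map_eq_zero]
    exact ha
  exact (inv_le_one₀ (zero_lt_iff.2 h2)).1 h1

/-- specialisation of a point -/
theorem spec {k K L : Type} [Field k] [Field K] [Field L] [Algebra k K] [Algebra K L]
    [IsAlgClosed K] {M q : ℕ} {V : Set (MvPolynomial (Fin (M + 1)) k)}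
    {d : Fin q → ℕ} (t : Idx M d → K)
    (hV : ∀ H ∈ V, ∃ e, H.IsHomogeneous e) (B : ValuationSubring L)
    (hB : ∀ a : K, algebraMap K L a ∈ B) (x : Fin (M + 1) → L) (hx : x ≠ 0)
    (hxV : ∀ H ∈ V, eval₂ ((algebraMap K L).comp (algebraMap k K)) x H = 0) :
    ∃ c : L, c ≠ 0 ∧ ∃ y : Fin (M + 1) → K, y ≠ 0 ∧
      (∀ H ∈ V, eval₂ (algebraMap k K) y H = 0) ∧
      ∀ b, B.valuation (c ^ d b * fv t x b) ≤ 1 ∧
        (fv t y b ≠ 0 → B.valuation (c ^ d b * fv t x b) = 1) := by
  classical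
  obtain ⟨a, ha⟩ := Finite.exists_max fun i => B.valuation (x i)
  have hxa : x a ≠ 0 := by
    intro h0
    apply hx
    funext i
    have h1 := ha i
    simp only [h0, map_zero, le_zero_iff, map_eq_zero] at h1
    exact h1
  have hva : B.valuation (x a) ≠ 0 := by
    rw [Ne, map_eq_zero]
    exact hxa
  have hz : ∀ i, (x a)⁻¹ * x i ∈ B := by
    intro i
    rw [← B.valuation_le_one_iff, map_mul, map_inv₀]
    calc (B.valuation (x a))⁻¹ * B.valuation (x i)
        ≤ (B.valuation (x a))⁻¹ * B.valuation (x a) := mul_le_mul_right (ha i) _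
      _ = 1 := inv_mul_cancel₀ hva
  let z : Fin (M + 1) → L := fun i => (x a)⁻¹ * x i
  let zB : Fin (M + 1) → B := fun i => ⟨z i, hz i⟩
  let φB : K →+* B := (algebraMap K L).codRestrict B hB
  let ρ : B →+* IsLocalRing.ResidueField B := IsLocalRing.residue B
  have hcoe : ∀ G : MvPolynomial (Fin (M + 1)) K,
      ((eval₂ φB zB G : B) : L) = eval₂ (algebraMap K L) z G := by
    intro G
    have h1 := eval₂_comp_left B.subtype φB zB G
    exact h1
  have hfz : ∀ b, fv t z b = (x a)⁻¹ ^ d b * fv t x b := by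
    intro b
    have h1 := fv_smul (K := K) (L := L) (Ω := L) t (x a)⁻¹ x b
    simpa using h1
  have hfB : ∀ b, ((eval₂ φB zB (frm t b) : B) : L) = (x a)⁻¹ ^ d b * fv t x b := by
    intro b
    rw [hcoe, ← hfz, ← aeval_frm]
    rfl
  let W : Set (MvPolynomial (Fin (M + 1)) K) := (map (algebraMap k K)) '' V ∪
    {G | ∃ b, G = frm t b ∧ B.valuation ((x a)⁻¹ ^ d b * fv t x b) < 1} ∪ {X a - 1}
  let Ψ : MvPolynomial (Fin (M + 1)) K →+* IsLocalRing.ResidueField B :=
    eval₂Hom (ρ.comp φB) fun i => ρ (zB i)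
  have hΨ : ∀ G, Ψ G = ρ (eval₂ φB zB G) := by
    intro G
    change eval₂ (ρ.comp φB) (fun i => ρ (zB i)) G = _
    rw [eval₂_comp_left]
    rfl
  have hW : ∀ G ∈ W, Ψ G = 0 := by
    rintro G ((⟨H, hH, rfl⟩ | ⟨b, rfl, hb⟩) | rfl)
    · rw [hΨ]
      have h1 : (eval₂ φB zB (map (algebraMap k K) H) : B) = 0 := by
        apply Subtype.ext
        rw [hcoe, eval₂_map]
        obtain ⟨e, he⟩ := hV H hH
        have h2 := eval_smul ((algebraMap K L).comp (algebraMap k K)) H he (x a)⁻¹ x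
        rw [hxV H hH, mul_zero] at h2
        exact h2
      rw [h1, map_zero]
    · rw [hΨ]
      rw [← hfB, ← B.valuation_lt_one_iff] at hb
      exact (IsLocalRing.residue_eq_zero_iff _).2 hb
    · rw [hΨ]
      have h1 : (eval₂ φB zB (X a - 1 : MvPolynomial (Fin (M + 1)) K) : B) = 0 := by
        rw [eval₂_sub, eval₂_X, eval₂_one]
        apply Subtype.ext
        change (x a)⁻¹ * x a - 1 = 0
        rw [inv_mul_cancel₀ hxa, sub_self]
      rw [h1, map_zero]
  have hI : Ideal.span W ≠ ⊤ := by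
    intro htop
    have h1 : Ideal.span W ≤ RingHom.ker Ψ := Ideal.span_le.2 fun G hG => hW G hG
    have h2 : (1 : MvPolynomial (Fin (M + 1)) K) ∈ RingHom.ker Ψ := by
      apply h1
      rw [htop]
      exact Submodule.mem_top
    rw [RingHom.mem_ker, map_one] at h2
    exact one_ne_zero h2
  obtain ⟨m, hm, hle⟩ := Ideal.exists_le_maximal _ hI
  obtain ⟨y, rfl⟩ := isMaximal_iff_eq_vanishingIdeal_singleton.1 hm
  have hy : ∀ G ∈ W, aeval y G = 0 := fun G hG =>
    (mem_vanishingIdeal_singleton_iff y G).1 (hle (Ideal.subset_span hG))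
  refine ⟨(x a)⁻¹, inv_ne_zero hxa, y, ?_, ?_, ?_⟩
  · intro h0
    have h1 := hy (X a - 1) (Or.inr rfl)
    rw [map_sub, aeval_X, map_one, h0, Pi.zero_apply, zero_sub, neg_eq_zero] at h1
    exact one_ne_zero h1
  · intro H hH
    have h1 := hy _ (Or.inl (Or.inl ⟨H, hH, rfl⟩))
    rw [aeval_def, eval₂_map] at h1
    simpa using h1
  · intro b
    have h1 : B.valuation ((x a)⁻¹ ^ d b * fv t x b) ≤ 1 := by
      rw [← hfB]
      exact B.valuation_le_one _
    refine ⟨h1, fun h2 => ?_⟩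
    by_contra h3
    apply h2
    rw [← aeval_frm]
    exact hy _ (Or.inl (Or.inr ⟨b, rfl, lt_of_le_of_ne h1 h3⟩))

section

variable {k K L : Type} [Field k] [Field K] [Field L] [Algebra k K] [Algebra K L]
  [IsAlgClosed K] {M q δ : ℕ} {V : Set (MvPolynomial (Fin (M + 1)) k)}
  {d : Fin q → ℕ} {t : Idx M d → K} {x : Fin δ → Fin (M + 1) → L}

/-- specialisations of a tuple at two places -/
theorem spec2 (hV : ∀ H ∈ V, ∃ e, H.IsHomogeneous e) (hF : Few k K V t (2 * δ))
    (hbad : Bad k K L V t x) (B : Bool → ValuationSubring L)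
    (hB : ∀ i, ∀ a : K, algebraMap K L a ∈ B i) :
    ∃ b₀, ∀ i, ∃ c : Fin δ → L, (∀ l, c l ≠ 0) ∧
      (∀ l b, (B i).valuation (c l ^ d b * fv t (x l) b) ≤ 1) ∧
      ∀ l, (B i).valuation (c l ^ d b₀ * fv t (x l) b₀) = 1 := by
  choose c hc0 y hy0 hyV hy using fun i l =>
    spec t hV (B i) (hB i) (x l) (hbad.ne l) (hbad.onV l)
  let e : Fin (2 * δ) ≃ Bool × Fin δ :=
    (finProdFinEquiv.symm : Fin (2 * δ) ≃ Fin 2 × Fin δ).trans
      (finTwoEquiv.prodCongr (Equiv.refl _))
  obtain ⟨b₀, hb₀⟩ := hF (fun j => y (e j).1 (e j).2) (fun j => hy0 _ _) (fun j => hyV _ _)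
  refine ⟨b₀, fun i => ⟨c i, hc0 i, fun l b => (hy i l b).1, fun l => (hy i l b₀).2 ?_⟩⟩
  have h1 := hb₀ (e.symm (i, l))
  rwa [e.apply_symm_apply] at h1

omit [IsAlgClosed K] in
theorem val_prod (B : ValuationSubring L) (c : Fin δ → L) (b : Fin q) :
    B.valuation ((∏ l, c l) ^ d b * pv t x b) =
      ∏ l, B.valuation (c l ^ d b * fv t (x l) b) := by
  unfold pv
  rw [← Finset.prod_pow, ← Finset.prod_mul_distrib, map_prod]

/-- the quotients at two places -/
theorem quot2 (hV : ∀ H ∈ V, ∃ e, H.IsHomogeneous e) (hF : Few k K V t (2 * δ))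
    (hbad : Bad k K L V t x) (B : Bool → ValuationSubring L)
    (hB : ∀ i, ∀ a : K, algebraMap K L a ∈ B i) :
    ∃ b₀, ∀ i b, (B i).valuation (qn t x b₀ b) ≤ 1 := by
  obtain ⟨b₀, h⟩ := spec2 hV hF hbad B hB
  refine ⟨b₀, fun i b => ?_⟩
  obtain ⟨c, hc, h1, h2⟩ := h i
  have hC : (∏ l, c l) ≠ 0 := Finset.prod_ne_zero_iff.2 fun l _ => hc l
  have e1 : qn t x b₀ b = ((∏ l, c l) ^ d b * pv t x b) ^ d b₀ /
      ((∏ l, c l) ^ d b₀ * pv t x b₀) ^ d b := by
    unfold qn
    rw [mul_pow, mul_pow, ← pow_mul, ← pow_mul, mul_comm (d b₀) (d b),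
      mul_div_mul_left _ _ (pow_ne_zero _ hC)]
  have e2 : (B i).valuation ((∏ l, c l) ^ d b₀ * pv t x b₀) = 1 := by
    rw [val_prod]
    exact Finset.prod_eq_one fun l _ => h2 l
  have e3 : (B i).valuation ((∏ l, c l) ^ d b * pv t x b) ≤ 1 := by
    rw [val_prod]
    exact Finset.prod_le_one' fun l _ => h1 l b
  rw [e1, map_div₀, map_pow, map_pow, e2, one_pow, div_one]
  exact pow_le_one' e3 _

/-- the case of constant quotients -/
theorem const (hV : ∀ H ∈ V, ∃ e, H.IsHomogeneous e) (hd : ∀ b, 1 ≤ d b) (hδ : 1 ≤ δ)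
    (hF : Few k K V t (2 * δ)) (hbad : Bad k K L V t x)
    (hq : ∀ b₀ b, ∃ a : K, qn t x b₀ b = algebraMap K L a) : False := by
  classical
  -- the quotients of the values at each point are constant
  have hquot : ∀ l b b', ∃ a : K, fv t (x l) b ^ d b' / fv t (x l) b' ^ d b =
      algebraMap K L a := by
    intro l b b'
    by_contra hcon
    have htr : Transcendental K (fv t (x l) b ^ d b' / fv t (x l) b' ^ d b) := by
      intro halg
      obtain ⟨a, ha⟩ := mem_of_integral _ halg.isIntegral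
      exact hcon ⟨a, ha⟩
    obtain ⟨B, hB, hs⟩ := exists_val htr
    obtain ⟨b₀, h⟩ := spec2 hV hF hbad (fun _ => B) (fun _ => hB)
    obtain ⟨c, hc, h1, h2⟩ := h true
    have hC : (∏ l, c l) ≠ 0 := Finset.prod_ne_zero_iff.2 fun l _ => hc l
    have e2 : B.valuation ((∏ l, c l) ^ d b₀ * pv t x b₀) = 1 := by
      rw [val_prod]
      exact Finset.prod_eq_one fun l _ => h2 l
    have hp : ∀ b, pv t x b ≠ 0 := fun b => Finset.prod_ne_zero_iff.2 fun l _ => hbad.off l b
    have h3 : ∀ b, B.valuation ((∏ l, c l) ^ d b * pv t x b) = 1 := by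
      intro b
      obtain ⟨a, ha⟩ := hq b₀ b
      have e1 : qn t x b₀ b = ((∏ l, c l) ^ d b * pv t x b) ^ d b₀ /
          ((∏ l, c l) ^ d b₀ * pv t x b₀) ^ d b := by
        unfold qn
        rw [mul_pow, mul_pow, ← pow_mul, ← pow_mul, mul_comm (d b₀) (d b),
          mul_div_mul_left _ _ (pow_ne_zero _ hC)]
      have hq0 : qn t x b₀ b ≠ 0 := div_ne_zero (pow_ne_zero _ (hp b)) (pow_ne_zero _ (hp b₀))
      have ha0 : a ≠ 0 := by
        rintro rfl
        rw [map_zero] at ha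
        exact hq0 ha
      have e4 : B.valuation (qn t x b₀ b) = 1 := by
        rw [ha]
        exact val_one B hB ha0
      rw [e1, map_div₀, map_pow, map_pow, e2, one_pow, div_one] at e4
      exact eq_one_of_pow (by have := hd b₀; omega) e4
    have h4 : ∀ l b, B.valuation (c l ^ d b * fv t (x l) b) = 1 := by
      intro l b
      have h5 := h3 b
      rw [val_prod] at h5
      have h6 : ∀ l ∈ (Finset.univ : Finset (Fin δ)),
          B.valuation (c l ^ d b * fv t (x l) b) ≤ 1 := fun l _ => h1 l b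
      refine le_antisymm (h1 l b) ?_
      rw [← h5, ← Finset.mul_prod_erase Finset.univ _ (Finset.mem_univ l)]
      exact mul_le_of_le_one_right' (Finset.prod_le_one' fun l _ => h1 l b)
    have e5 : fv t (x l) b ^ d b' / fv t (x l) b' ^ d b =
        (c l ^ d b * fv t (x l) b) ^ d b' / (c l ^ d b' * fv t (x l) b') ^ d b := by
      rw [mul_pow, mul_pow, ← pow_mul, ← pow_mul, mul_comm (d b') (d b),
        mul_div_mul_left _ _ (pow_ne_zero _ (hc l))]
    rw [ValuationSubring.mem_nonunits_iff, e5, map_div₀, map_pow, map_pow, h4, h4, one_pow,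
      one_pow, div_one] at hs
    exact lt_irrefl _ hs
  -- no common zero
  set f : k →+* K := algebraMap k K with hf
  set VK : Set (MvPolynomial (Fin (M + 1)) K) := (MvPolynomial.map f) '' V with hVK
  have hrad : ∀ a, X a ∈ (Ideal.span (VK ∪ Set.range (frm t))).radical := by
    intro a
    rw [← vanishingIdeal_zeroLocus_eq_radical (K := K), mem_vanishingIdeal_iff]
    intro y hy
    rw [mem_zeroLocus_iff] at hy
    have hy0 : y = 0 := by
      by_contra hy0
      obtain ⟨b, hb⟩ := hF (fun _ => y) (fun _ => hy0) (by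
        intro _ H hH
        have h3 := hy (MvPolynomial.map f H)
          (Ideal.subset_span (Or.inl (Set.mem_image_of_mem _ hH)))
        rw [aeval_def, eval₂_map, Algebra.algebraMap_self, RingHom.id_comp] at h3
        exact h3)
      apply hb ⟨0, by omega⟩
      rw [← aeval_frm]
      exact hy _ (Ideal.subset_span (Or.inr (Set.mem_range_self b)))
    rw [aeval_X, hy0, Pi.zero_apply]
  apply hbad.noncst
  intro l
  obtain ⟨b₀, -⟩ := spec2 hV hF hbad (fun _ => ⊤) (fun _ a => ValuationSubring.mem_top _)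
  let Ω : Type := AlgebraicClosure L
  obtain ⟨ρ, hρ⟩ : ∃ ρ : Ω, ρ ^ d b₀ = algebraMap L Ω (fv t (x l) b₀) :=
    IsAlgClosed.exists_pow_nat_eq _ (hd b₀)
  have hinj : Function.Injective (algebraMap L Ω) := RingHom.injective _
  have hne : algebraMap L Ω (fv t (x l) b₀) ≠ 0 := by
    rw [Ne, map_eq_zero]
    exact hbad.off l b₀
  have hρ0 : ρ ≠ 0 := by
    rintro rfl
    rw [zero_pow (by have := hd b₀; omega)] at hρ
    exact hne hρ.symm
  set x' : Fin (M + 1) → Ω := fun j => ρ⁻¹ * algebraMap L Ω (x l j) with hx'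
  have hfv : ∀ i, fv t x' i = ρ⁻¹ ^ d i * algebraMap L Ω (fv t (x l) i) :=
    fun i => fv_smul t _ (x l) i
  have hval : ∀ i, ∃ b : K, fv t x' i = algebraMap K Ω b := by
    intro i
    obtain ⟨a, ha⟩ := hquot l i b₀
    have h3 : fv t x' i ^ d b₀ = algebraMap K Ω a := by
      rw [hfv, mul_pow, ← pow_mul, mul_comm (d i), pow_mul, inv_pow, hρ,
        IsScalarTower.algebraMap_apply K L Ω, ← ha, map_div₀, map_pow, map_pow, inv_pow]
      rw [div_eq_inv_mul]
    apply mem_of_integral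
    refine IsIntegral.of_pow (n := d b₀) (by have := hd b₀; omega) ?_
    rw [h3]
    exact isIntegral_algebraMap
  have halg : ∀ a, IsAlgebraic K (x' a) := by
    refine Pool.Agent.NH29.GN.alg K Ω M VK ?_ (Fin q) (frm t) d hd (frm_hom t) hrad x' ?_ ?_
    · rintro _ ⟨H, hH, rfl⟩
      obtain ⟨e, he⟩ := hV H hH
      exact ⟨e, he.map f⟩
    · rintro _ ⟨H, hH, rfl⟩
      obtain ⟨e, he⟩ := hV H hH
      rw [aeval_def, eval₂_map]
      have h3 := hbad.onV l H hH
      have h4 := congrArg (algebraMap L Ω) h3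
      rw [eval₂_comp_left, map_zero, ← RingHom.comp_assoc, ← IsScalarTower.algebraMap_eq] at h4
      rw [hx', eval_smul _ H he]
      have h5 : eval₂ ((algebraMap K Ω).comp f) (fun j => algebraMap L Ω (x l j)) H = 0 := h4
      rw [h5, mul_zero]
    · intro j
      rw [aeval_frm]
      exact hval j
  have hy : ∀ a, ∃ b : K, x' a = algebraMap K Ω b := fun a =>
    mem_of_integral _ (halg a).isIntegral
  choose y hy using hy
  have hy' : ∀ a, algebraMap L Ω (x l a) = ρ * algebraMap K Ω (y a) := by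
    intro a
    rw [← hy a, hx']
    exact (mul_inv_cancel_left₀ hρ0 _).symm
  obtain ⟨a₀, ha₀⟩ : ∃ a, y a ≠ 0 := by
    by_contra hcon
    push Not at hcon
    have h3 : x' = 0 := by
      funext a
      rw [hy a, hcon a, map_zero, Pi.zero_apply]
    have h4 := hfv b₀
    rw [h3, fv_zero hd, inv_pow, hρ, inv_mul_cancel₀ hne] at h4
    exact zero_ne_one h4
  have hya : algebraMap K L (y a₀) ≠ 0 := by
    rw [Ne, map_eq_zero]
    exact ha₀
  have hρL : ρ = algebraMap L Ω (x l a₀ / algebraMap K L (y a₀)) := by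
    rw [map_div₀, hy' a₀, ← IsScalarTower.algebraMap_apply]
    have h3 : algebraMap K Ω (y a₀) ≠ 0 := by
      rw [Ne, map_eq_zero]
      exact ha₀
    rw [mul_div_cancel_right₀ _ h3]
  refine ⟨x l a₀ / algebraMap K L (y a₀), y, funext fun a => hinj ?_⟩
  rw [hy' a, map_mul, ← hρL, ← IsScalarTower.algebraMap_apply]

/-- there is no bad tuple -/
theorem noBad (hV : ∀ H ∈ V, ∃ e, H.IsHomogeneous e) (hd : ∀ b, 1 ≤ d b) (hδ : 1 ≤ δ)
    (hF : Few k K V t (2 * δ)) : ¬ Bad k K L V t x := by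
  classical
  intro hbad
  by_cases hq : ∀ b₀ b, ∃ a : K, qn t x b₀ b = algebraMap K L a
  · exact const hV hd hδ hF hbad hq
  push Not at hq
  obtain ⟨b₁, b₂, hb₂⟩ := hq
  have hp : ∀ b, pv t x b ≠ 0 := fun b => Finset.prod_ne_zero_iff.2 fun l _ => hbad.off l b
  obtain ⟨v, hv⟩ : ∃ v : Fin q → L, v = qn t x b₁ := ⟨_, rfl⟩
  have hv0 : ∀ b, v b ≠ 0 := fun b => by
    rw [hv]
    exact div_ne_zero (pow_ne_zero _ (hp b)) (pow_ne_zero _ (hp b₁))
  have hind : Ind K v := by
    rw [hv]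
    exact hbad.ind b₁
  obtain ⟨J, hJ, hJrel⟩ := Pool.Agent.NH29.GN.rel K L q v hv0 hind
  -- `J` is not empty
  obtain ⟨j₀, hj₀⟩ : J.Nonempty := by
    by_contra hcon
    rw [Finset.not_nonempty_iff_eq_empty] at hcon
    obtain ⟨N, m, c, hN, hc, hm, he⟩ := hJrel b₂
    have h1 : ∏ j, v j ^ m j = 1 := by
      refine Finset.prod_eq_one fun j _ => ?_
      rw [hm j (by rw [hcon]; exact Finset.notMem_empty j), zpow_zero]
    rw [h1, mul_one] at he
    obtain ⟨a, ha⟩ := Pool.Agent.NH29.GN.Stc.mem_of_pow hN he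
    rw [hv] at ha
    exact hb₂ a ha
  -- the field generated by the others
  let F : IntermediateField K L :=
    IntermediateField.adjoin K ((fun j : J => v j) '' {j | j.1 ≠ j₀})
  have htr : Transcendental F (v j₀) := by
    rw [IntermediateField.transcendental_adjoin_iff]
    exact hJ.transcendental_adjoin (i := ⟨j₀, hj₀⟩) (s := {j | j.1 ≠ j₀}) (by simp)
  have htr' : Transcendental F (v j₀)⁻¹ := by
    intro h
    apply htr
    have h1 := h.inv
    rwa [inv_inv] at h1
  obtain ⟨B₁, hB₁, hs₁⟩ := exists_val htr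
  obtain ⟨B₂, hB₂, hs₂⟩ := exists_val htr'
  rw [ValuationSubring.mem_nonunits_iff] at hs₁ hs₂
  let B : Bool → ValuationSubring L := fun i => if i then B₁ else B₂
  have hBF : ∀ i, ∀ a : F, algebraMap F L a ∈ B i := by
    intro i
    cases i
    · exact hB₂
    · exact hB₁
  have hBK : ∀ i, ∀ a : K, algebraMap K L a ∈ B i := by
    intro i a
    have h1 := hBF i (algebraMap K F a)
    rwa [← IsScalarTower.algebraMap_apply] at h1
  obtain ⟨b₀, hb₀⟩ := quot2 hV hF hbad B hBK
  -- the relation between the quotients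
  have hrel : ∀ b, qn t x b₀ b ^ d b₁ = v b ^ d b₀ / v b₀ ^ d b := by
    intro b
    rw [hv]
    unfold qn
    have h1 := hp b
    have h2 := hp b₀
    have h3 := hp b₁
    rw [div_pow, div_pow, div_pow, ← pow_mul, ← pow_mul, ← pow_mul, ← pow_mul, ← pow_mul,
      ← pow_mul]
    rw [div_div_div_eq, div_eq_div_iff (pow_ne_zero _ h2) (mul_ne_zero (pow_ne_zero _ h3)
      (pow_ne_zero _ h2))]
    ring
  have hval : ∀ i b, (B i).valuation (v b) ^ d b₀ ≤ (B i).valuation (v b₀) ^ d b := by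
    intro i b
    have h1 : (B i).valuation (qn t x b₀ b ^ d b₁) ≤ 1 := by
      rw [map_pow]
      exact pow_le_one' (hb₀ i b) _
    rw [hrel, map_div₀, map_pow, map_pow] at h1
    have h2 : (0 : (B i).ValueGroup) < (B i).valuation (v b₀) ^ d b := by
      rw [zero_lt_iff]
      exact pow_ne_zero _ (by rw [Ne, map_eq_zero]; exact hv0 b₀)
    exact (div_le_one₀ h2).1 h1
  have hvb₁ : v b₁ = 1 := by
    rw [hv]
    unfold qn
    exact div_self (pow_ne_zero _ (hp b₁))
  have hge : ∀ i, 1 ≤ (B i).valuation (v b₀) := by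
    intro i
    have h1 := hval i b₁
    rw [hvb₁, map_one, one_pow] at h1
    exact (one_le_pow_iff (by have := hd b₁; omega)).1 h1
  obtain ⟨N, m, c, hN, hc, hm, he⟩ := hJrel b₀
  have hvj : ∀ i, (B i).valuation (v b₀) ^ N = (B i).valuation (v j₀) ^ m j₀ := by
    intro i
    rw [← map_pow, he, map_mul, val_one (B i) (hBK i) hc, one_mul,
      ← Finset.mul_prod_erase Finset.univ _ (Finset.mem_univ j₀), map_mul, map_zpow₀, map_prod,
      Finset.prod_eq_one, mul_one]
    intro j hj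
    have hjne : j ≠ j₀ := (Finset.mem_erase.1 hj).1
    by_cases hjJ : j ∈ J
    · have h1 : v j ∈ F := IntermediateField.subset_adjoin K _ ⟨⟨j, hjJ⟩, hjne, rfl⟩
      have h2 := val_one (B i) (hBF i) (a := (⟨v j, h1⟩ : F)) (by
        intro h
        exact hv0 j (congrArg Subtype.val h))
      have h3 : (B i).valuation (v j) = 1 := h2
      rw [map_zpow₀, h3, one_zpow]
    · rw [hm j hjJ, zpow_zero, map_one]
  have h1 : B₁.valuation (v j₀) < 1 := hs₁
  have h2 : 1 < B₂.valuation (v j₀) := by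
    rw [map_inv₀] at hs₂
    exact (inv_lt_one₀ (by rw [zero_lt_iff, Ne, map_eq_zero]; exact hv0 j₀)).1 hs₂
  have hj1 : B₁.valuation (v j₀) ≠ 0 := by
    rw [Ne, map_eq_zero]
    exact hv0 j₀
  rcases lt_trichotomy (m j₀) 0 with hm0 | hm0 | hm0
  · have h3 : B₂.valuation (v b₀) ^ N = B₂.valuation (v j₀) ^ m j₀ := hvj false
    have h4 : 1 ≤ B₂.valuation (v b₀) ^ N := one_le_pow₀ (hge false)
    rw [h3] at h4
    have h5 : B₂.valuation (v j₀) ^ m j₀ < 1 := zpow_lt_one_of_neg₀ h2 hm0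
    exact absurd h4 (not_le.2 h5)
  · have h3 : B₂.valuation (v b₀) ^ N = B₂.valuation (v j₀) ^ m j₀ := hvj false
    rw [hm0, zpow_zero] at h3
    have h4 : B₂.valuation (v b₀) = 1 := eq_one_of_pow hN.ne' h3
    have h5 : B₂.valuation (v j₀) ^ d b₀ ≤ B₂.valuation (v b₀) ^ d j₀ := hval false j₀
    rw [h4, one_pow] at h5
    exact absurd h5 (not_le.2 (one_lt_pow₀ h2 (by have := hd b₀; omega)))
  · have h3 : B₁.valuation (v b₀) ^ N = B₁.valuation (v j₀) ^ m j₀ := hvj true
    have h4 : 1 ≤ B₁.valuation (v b₀) ^ N := one_le_pow₀ (hge true)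
    rw [h3] at h4
    have h5 : B₁.valuation (v j₀) ^ m j₀ < 1 := by
      obtain ⟨n, hn⟩ := Int.eq_ofNat_of_zero_le hm0.le
      rw [hn, zpow_natCast]
      exact pow_lt_one₀ zero_le h1 (by omega)
    exact absurd h4 (not_le.2 h5)

end

end Pool.Agent.U981.MH
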